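import Mathlib

set_option autoImplicit false

namespace H912Tor

open MvPolynomial

/-- `F` is an integer valued function given by a complex polynomial of degree at most `D`. -/
def IP (D : ℕ) (F : (Fin 3 → ℤ) → ℤ) : Prop :=
  ∃ P : MvPolynomial (Fin 3) ℂ, P.totalDegree ≤ D ∧
    ∀ x : Fin 3 → ℤ, MvPolynomial.eval (fun i => ((x i : ℤ) : ℂ)) P = ((F x : ℤ) : ℂ)

lemma IP.mono {D D' : ℕ} {F : (Fin 3 → ℤ) → ℤ} (h : IP D F) (hD : D ≤ D') : IP D' F := by
  obtain ⟨P, h1, h2⟩ := h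
  exact ⟨P, h1.trans hD, h2⟩

lemma IP.const (c : ℤ) : IP 0 (fun _ => c) :=
  ⟨C (c : ℂ), (totalDegree_C _).le, by intro x; simp⟩

lemma IP.coord (i : Fin 3) : IP 1 (fun x => x i) :=
  ⟨X i, by simp, by intro x; simp⟩

lemma IP.add {D : ℕ} {F G : (Fin 3 → ℤ) → ℤ} (hF : IP D F) (hG : IP D G) :
    IP D (fun x => F x + G x) := by
  obtain ⟨P, h1, h2⟩ := hF
  obtain ⟨Q, h3, h4⟩ := hG
  refine ⟨P + Q, (totalDegree_add _ _).trans (max_le h1 h3), ?_⟩
  intro x
  simp [h2, h4]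

lemma IP.sub {D : ℕ} {F G : (Fin 3 → ℤ) → ℤ} (hF : IP D F) (hG : IP D G) :
    IP D (fun x => F x - G x) := by
  obtain ⟨P, h1, h2⟩ := hF
  obtain ⟨Q, h3, h4⟩ := hG
  refine ⟨P - Q, (totalDegree_sub _ _).trans (max_le h1 h3), ?_⟩
  intro x
  simp [h2, h4]

lemma IP.mul {D E : ℕ} {F G : (Fin 3 → ℤ) → ℤ} (hF : IP D F) (hG : IP E G) :
    IP (D + E) (fun x => F x * G x) := by
  obtain ⟨P, h1, h2⟩ := hF
  obtain ⟨Q, h3, h4⟩ := hG
  refine ⟨P * Q, (totalDegree_mul _ _).trans (add_le_add h1 h3), ?_⟩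
  intro x
  simp [h2, h4]

lemma IP.pow {D : ℕ} {F : (Fin 3 → ℤ) → ℤ} (hF : IP D F) (k : ℕ) :
    IP (k * D) (fun x => F x ^ k) := by
  obtain ⟨P, h1, h2⟩ := hF
  refine ⟨P ^ k, (totalDegree_pow _ _).trans (Nat.mul_le_mul_left _ h1), ?_⟩
  intro x
  simp [h2]

lemma IP.prod {ι : Type*} {D : ℕ} (T : Finset ι) {F : ι → (Fin 3 → ℤ) → ℤ}
    (hF : ∀ i ∈ T, IP D (F i)) : IP (T.card * D) (fun x => ∏ i ∈ T, F i x) := by
  classical
  revert hF
  refine Finset.induction_on T ?_ ?_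
  · intro _
    simpa using IP.const 1
  · intro a T ha ih hF
    have h1 := (hF a (Finset.mem_insert_self _ _)).mul
      (ih (fun i hi => hF i (Finset.mem_insert_of_mem hi)))
    rw [Finset.card_insert_of_notMem ha]
    have h2 : (fun x => ∏ i ∈ insert a T, F i x) = fun x => F a x * ∏ i ∈ T, F i x := by
      funext x
      rw [Finset.prod_insert ha]
    rw [h2]
    refine h1.mono ?_
    rw [Nat.add_mul, one_mul, add_comm]

lemma IP.divv {D : ℕ} {F G : (Fin 3 → ℤ) → ℤ} (hF : IP D F) (p : ℕ) (hp : p ≠ 0)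
    (h : ∀ x, (p : ℤ) * G x = F x) : IP D G := by
  obtain ⟨P, h1, h2⟩ := hF
  refine ⟨C ((p : ℂ)⁻¹) * P, ?_, ?_⟩
  · refine (totalDegree_mul _ _).trans ?_
    simpa using h1
  · intro x
    have h3 : ((F x : ℤ) : ℂ) = (p : ℂ) * ((G x : ℤ) : ℂ) := by
      rw [← h x]; push_cast; ring
    have hp' : (p : ℂ) ≠ 0 := by exact_mod_cast hp
    rw [map_mul, eval_C, h2, h3]
    field_simp

/-- If all integer valued polynomials of degree at most `D` are annihilated by the measure `a` on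
`S` and there are good interpolating functions modulo `p`, then `a = 0`. -/
lemma kill {D : ℕ} (p : ℕ) [Fact p.Prime] (S : Finset (Fin 3 → ℤ)) (a : (Fin 3 → ℤ) → ℂ)
    (hkill : ∀ F, IP D F → ∑ x ∈ S, a x * ((F x : ℤ) : ℂ) = 0)
    (hF : ∀ s ∈ S, ∃ F, IP D F ∧ (∀ t ∈ S, t ≠ s → ((F t : ℤ) : ZMod p) = 0) ∧
      ((F s : ℤ) : ZMod p) ≠ 0) :
    ∀ x ∈ S, a x = 0 := by
  classical
  choose! F h1 h2 h3 using hF
  let M : Matrix S S ℤ := Matrix.of (fun s t => F s.1 t.1)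
  have hdet : M.det ≠ 0 := by
    intro h0
    have h4 : ((M.map (Int.castRingHom (ZMod p))).det) = 0 := by
      have := (Int.castRingHom (ZMod p)).map_det M
      rw [h0, map_zero] at this
      exact this.symm
    have h5 : M.map (Int.castRingHom (ZMod p)) =
        Matrix.diagonal (fun s : S => ((F s.1 s.1 : ℤ) : ZMod p)) := by
      ext s t
      by_cases hst : s = t
      · subst hst
        rw [Matrix.diagonal_apply_eq, Matrix.map_apply]
        rfl
      · rw [Matrix.diagonal_apply_ne _ hst]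
        have : (t : Fin 3 → ℤ) ≠ s := fun h => hst (Subtype.ext h.symm)
        rw [Matrix.map_apply]
        exact h2 s.1 s.2 t.1 t.2 this
    rw [h5, Matrix.det_diagonal, Finset.prod_eq_zero_iff] at h4
    obtain ⟨s, _, hs⟩ := h4
    exact h3 s.1 s.2 hs
  have hdet' : (M.map (Int.castRingHom ℂ)).det ≠ 0 := by
    have := (Int.castRingHom ℂ).map_det M
    intro h0
    have h6 : ((Int.castRingHom ℂ) M.det) = 0 := by rw [this]; exact h0
    have h7 : ((M.det : ℤ) : ℂ) = 0 := h6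
    exact hdet (by exact_mod_cast h7)
  have hz : (fun t : S => a t.1) = 0 := by
    apply Matrix.eq_zero_of_mulVec_eq_zero hdet'
    funext s
    have := hkill (F s.1) (h1 s.1 s.2)
    rw [← Finset.sum_coe_sort] at this
    have e : ∀ t : S, (M.map (Int.castRingHom ℂ)) s t * a t.1 = a t.1 * ((F s.1 t.1 : ℤ) : ℂ) := by
      intro t
      rw [mul_comm, Matrix.map_apply]
      rfl
    simp only [Matrix.mulVec, dotProduct, Pi.zero_apply]
    rw [← this]
    exact Finset.sum_congr rfl fun t _ => e t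
  intro x hx
  exact congrFun hz ⟨x, hx⟩

end H912Tor
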