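import Mathlib
import Pool.Agent.H912R3.Tor.B

set_option autoImplicit false

namespace H912Tor

open Complex

/-- The trigonometric sum with frequencies in `S` and coefficients `a`. -/
noncomputable def U (S : Finset (Fin 3 → ℤ)) (a : (Fin 3 → ℤ) → ℂ) : (Fin 3 → ℝ) → ℂ :=
  fun x => ∑ ξ ∈ S, a ξ * Complex.exp (2 * (Real.pi : ℂ) * Complex.I *
    ∑ i, ((ξ i : ℝ) : ℂ) * ((x i : ℝ) : ℂ))

/-- The linear form `2πi ξ·x`. -/
noncomputable def ell (ξ : Fin 3 → ℤ) : (Fin 3 → ℝ) →L[ℝ] ℂ :=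
  ∑ i, (2 * (Real.pi : ℂ) * Complex.I * ((ξ i : ℝ) : ℂ)) •
    (Complex.ofRealCLM.comp (ContinuousLinearMap.proj (R := ℝ) (φ := fun _ : Fin 3 => ℝ) i))

lemma ell_apply (ξ : Fin 3 → ℤ) (x : Fin 3 → ℝ) :
    ell ξ x = 2 * (Real.pi : ℂ) * Complex.I * ∑ i, ((ξ i : ℝ) : ℂ) * ((x i : ℝ) : ℂ) := by
  simp only [ell, _root_.sum_apply, _root_.smul_apply,
    ContinuousLinearMap.comp_apply, ContinuousLinearMap.proj_apply, Complex.ofRealCLM_apply,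
    smul_eq_mul, Finset.mul_sum]
  refine Finset.sum_congr rfl fun i _ => ?_
  ring

lemma U_eq (S : Finset (Fin 3 → ℤ)) (a : (Fin 3 → ℤ) → ℂ) :
    U S a = fun x => ∑ ξ ∈ S, a ξ * Complex.exp (ell ξ x) := by
  funext x
  simp only [U, ell_apply]

lemma U_contDiff (S : Finset (Fin 3 → ℤ)) (a : (Fin 3 → ℤ) → ℂ) :
    ContDiff ℝ (⊤ : ℕ∞) (U S a) := by
  rw [U_eq]
  refine ContDiff.sum fun ξ _ => ?_
  exact contDiff_const.mul (Complex.contDiff_exp.comp (ell ξ).contDiff)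

lemma U_fderiv (S : Finset (Fin 3 → ℤ)) (a : (Fin 3 → ℤ) → ℂ) (i : Fin 3) (x : Fin 3 → ℝ) :
    fderiv ℝ (U S a) x (Pi.single i 1) =
      U S (fun ξ => a ξ * (2 * (Real.pi : ℂ) * Complex.I * ((ξ i : ℤ) : ℂ))) x := by
  have h1 : HasFDerivAt (U S a) (∑ ξ ∈ S, a ξ • (Complex.exp (ell ξ x) • ell ξ)) x := by
    rw [U_eq]
    refine HasFDerivAt.fun_sum fun ξ _ => ?_
    have h2 : HasFDerivAt (fun y => Complex.exp (ell ξ y)) (Complex.exp (ell ξ x) • ell ξ) x :=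
      (ell ξ).hasFDerivAt.cexp
    exact h2.const_mul (a ξ)
  rw [h1.fderiv, U_eq]
  simp only [_root_.sum_apply, _root_.smul_apply, smul_eq_mul]
  refine Finset.sum_congr rfl fun ξ _ => ?_
  have h3 : ell ξ (Pi.single i 1) = 2 * (Real.pi : ℂ) * Complex.I * ((ξ i : ℤ) : ℂ) := by
    rw [ell_apply]
    congr 1
    rw [Finset.sum_eq_single i]
    · simp
    · intro j _ hj
      simp [Pi.single_eq_of_ne hj]
    · simp
  rw [h3]
  ring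

/-- Vanishing to order `k` at `p`. -/
def Van (k : ℕ) (f : (Fin 3 → ℝ) → ℂ) (p : Fin 3 → ℝ) : Prop :=
  ∀ j : ℕ, j < k → iteratedFDeriv ℝ j f p = 0

lemma Van.deriv {k : ℕ} {S : Finset (Fin 3 → ℤ)} {a : (Fin 3 → ℤ) → ℂ} {p : Fin 3 → ℝ}
    (h : Van (k + 1) (U S a) p) (i : Fin 3) :
    Van k (U S (fun ξ => a ξ * (2 * (Real.pi : ℂ) * Complex.I * ((ξ i : ℤ) : ℂ)))) p := by
  intro j hj
  have h1 : (U S (fun ξ => a ξ * (2 * (Real.pi : ℂ) * Complex.I * ((ξ i : ℤ) : ℂ)))) =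
      (ContinuousLinearMap.apply ℝ ℂ (Pi.single i (1 : ℝ) : Fin 3 → ℝ)) ∘ fderiv ℝ (U S a) := by
    funext x
    rw [Function.comp_apply, ContinuousLinearMap.apply_apply, U_fderiv]
  have h2 : ContDiff ℝ (j : ℕ∞) (fderiv ℝ (U S a)) :=
    ((U_contDiff S a).fderiv_right (m := (j : ℕ∞)) (by exact_mod_cast le_top))
  rw [h1, ContinuousLinearMap.iteratedFDeriv_comp_left _ (h2.contDiffAt) (le_refl _)]
  have h3 : iteratedFDeriv ℝ j (fderiv ℝ (U S a)) p = 0 := by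
    rw [← norm_eq_zero, norm_iteratedFDeriv_fderiv, h (j + 1) (by omega), norm_zero]
  rw [h3]
  ext m
  simp

lemma mono_kill {S : Finset (Fin 3 → ℤ)} {p : Fin 3 → ℝ} (N : ℕ) :
    ∀ (a : (Fin 3 → ℤ) → ℂ) (k : ℕ), Van k (U S a) p → ∀ i j l : ℕ, i + j + l = N → N < k →
      ∑ ξ ∈ S, (a ξ * Complex.exp (ell ξ p)) *
        (((ξ 0 : ℤ) : ℂ) ^ i * ((ξ 1 : ℤ) : ℂ) ^ j * ((ξ 2 : ℤ) : ℂ) ^ l) = 0 := by
  have hc : (2 * (Real.pi : ℂ) * Complex.I) ≠ 0 := by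
    simp [Real.pi_ne_zero]
  induction N with
  | zero =>
    intro a k hk i j l hijl hNk
    have hi : i = 0 := by omega
    have hj : j = 0 := by omega
    have hl : l = 0 := by omega
    subst hi hj hl
    have h0 := hk 0 hNk
    have h1 : U S a p = 0 := by
      have : ‖iteratedFDeriv ℝ 0 (U S a) p‖ = 0 := by rw [h0, norm_zero]
      rw [norm_iteratedFDeriv_zero] at this
      exact norm_eq_zero.mp this
    rw [U_eq] at h1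
    simpa using h1
  | succ N ih =>
    intro a k hk i j l hijl hNk
    obtain ⟨k', rfl⟩ : ∃ k', k = k' + 1 := ⟨k - 1, by omega⟩
    have key : ∀ (q : Fin 3) (i' j' l' : ℕ), i' + j' + l' = N →
        ∑ ξ ∈ S, (a ξ * Complex.exp (ell ξ p)) * (((ξ q : ℤ) : ℂ) *
        (((ξ 0 : ℤ) : ℂ) ^ i' * ((ξ 1 : ℤ) : ℂ) ^ j' * ((ξ 2 : ℤ) : ℂ) ^ l')) = 0 := by
      intro q i' j' l' h'
      have h1 := ih _ k' (hk.deriv q) i' j' l' h' (by omega)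
      have h2 : ∑ ξ ∈ S, (a ξ * (2 * (Real.pi : ℂ) * Complex.I * ((ξ q : ℤ) : ℂ)) *
          Complex.exp (ell ξ p)) *
          (((ξ 0 : ℤ) : ℂ) ^ i' * ((ξ 1 : ℤ) : ℂ) ^ j' * ((ξ 2 : ℤ) : ℂ) ^ l') =
          (2 * (Real.pi : ℂ) * Complex.I) *
          ∑ ξ ∈ S, (a ξ * Complex.exp (ell ξ p)) * (((ξ q : ℤ) : ℂ) *
        (((ξ 0 : ℤ) : ℂ) ^ i' * ((ξ 1 : ℤ) : ℂ) ^ j' * ((ξ 2 : ℤ) : ℂ) ^ l')) := by
        rw [Finset.mul_sum]
        refine Finset.sum_congr rfl fun ξ _ => ?_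
        ring
      rw [h2] at h1
      exact (mul_eq_zero.mp h1).resolve_left hc
    rcases Nat.eq_zero_or_pos i with hi | hi
    · rcases Nat.eq_zero_or_pos j with hj | hj
      · obtain ⟨l', rfl⟩ : ∃ l', l = l' + 1 := ⟨l - 1, by omega⟩
        rw [← key 2 i j l' (by omega)]
        refine Finset.sum_congr rfl fun ξ _ => ?_
        ring
      · obtain ⟨j', rfl⟩ : ∃ j', j = j' + 1 := ⟨j - 1, by omega⟩
        rw [← key 1 i j' l (by omega)]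
        refine Finset.sum_congr rfl fun ξ _ => ?_
        ring
    · obtain ⟨i', rfl⟩ : ∃ i', i = i' + 1 := ⟨i - 1, by omega⟩
      rw [← key 0 i' j l (by omega)]
      refine Finset.sum_congr rfl fun ξ _ => ?_
      ring

lemma poly_kill {S : Finset (Fin 3 → ℤ)} {p : Fin 3 → ℝ} {a : (Fin 3 → ℤ) → ℂ} {k : ℕ}
    (hk : Van k (U S a) p) (F : (Fin 3 → ℤ) → ℤ) (D : ℕ) (hD : D < k) (hF : IP D F) :
    ∑ ξ ∈ S, (a ξ * Complex.exp (ell ξ p)) * ((F ξ : ℤ) : ℂ) = 0 := by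
  obtain ⟨P, h1, h2⟩ := hF
  have h3 : ∀ ξ : Fin 3 → ℤ, ((F ξ : ℤ) : ℂ) = ∑ m ∈ P.support, P.coeff m *
      (((ξ 0 : ℤ) : ℂ) ^ m 0 * ((ξ 1 : ℤ) : ℂ) ^ m 1 * ((ξ 2 : ℤ) : ℂ) ^ m 2) := by
    intro ξ
    rw [← h2 ξ, MvPolynomial.eval_eq']
    refine Finset.sum_congr rfl fun m _ => ?_
    rw [Fin.prod_univ_three]
  simp only [h3, Finset.mul_sum]
  rw [Finset.sum_comm]
  refine Finset.sum_eq_zero fun m hm => ?_
  have h4 : m 0 + m 1 + m 2 < k := by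
    have := MvPolynomial.le_totalDegree hm
    rw [Finsupp.sum_fintype _ _ (by simp), Fin.sum_univ_three] at this
    omega
  have h5 := mono_kill (S := S) (p := p) _ a k hk (m 0) (m 1) (m 2) rfl h4
  have h6 : ∑ ξ ∈ S, (a ξ * Complex.exp (ell ξ p)) * (P.coeff m *
      (((ξ 0 : ℤ) : ℂ) ^ m 0 * ((ξ 1 : ℤ) : ℂ) ^ m 1 * ((ξ 2 : ℤ) : ℂ) ^ m 2)) =
      P.coeff m * ∑ ξ ∈ S, (a ξ * Complex.exp (ell ξ p)) *
      (((ξ 0 : ℤ) : ℂ) ^ m 0 * ((ξ 1 : ℤ) : ℂ) ^ m 1 * ((ξ 2 : ℤ) : ℂ) ^ m 2) := by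
    rw [Finset.mul_sum]
    refine Finset.sum_congr rfl fun ξ _ => ?_
    ring
  rw [h6, h5, mul_zero]

end H912Tor
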