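import Mathlib

set_option autoImplicit false

namespace H912Tor

lemma tri (r δ u1 v1 u2 v2 u3 v3 : ℝ) (hr : 0 < r) (hδ : 2 * δ ^ 6 < r ^ 2)
    (e1 : u1 ^ 2 + v1 ^ 2 = r ^ 2) (e2 : u2 ^ 2 + v2 ^ 2 = r ^ 2) (e3 : u3 ^ 2 + v3 ^ 2 = r ^ 2)
    (c1 : |u1| ≤ v1) (c2 : |u2| ≤ v2) (c3 : |u3| ≤ v3)
    (n12 : u1 ≠ u2) (n13 : u1 ≠ u3) (n23 : u2 ≠ u3)
    (d12 : |u2 - u1| ≤ δ) (d13 : |u3 - u1| ≤ δ) (d23 : |u2 - u3| ≤ δ) :
    0 < ((u2 - u1) * (v3 - v1) - (u3 - u1) * (v2 - v1)) ^ 2 ∧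
    ((u2 - u1) * (v3 - v1) - (u3 - u1) * (v2 - v1)) ^ 2 < 1 := by
  set cr := (u2 - u1) * (v3 - v1) - (u3 - u1) * (v2 - v1) with hcr
  have hv1 : 0 ≤ v1 := (abs_nonneg _).trans c1
  have hv2 : 0 ≤ v2 := (abs_nonneg _).trans c2
  have hv3 : 0 ≤ v3 := (abs_nonneg _).trans c3
  have q1 : u1 ^ 2 ≤ v1 ^ 2 := by rw [← sq_abs u1]; exact pow_le_pow_left₀ (abs_nonneg _) c1 2
  have q2 : u2 ^ 2 ≤ v2 ^ 2 := by rw [← sq_abs u2]; exact pow_le_pow_left₀ (abs_nonneg _) c2 2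
  have q3 : u3 ^ 2 ≤ v3 ^ 2 := by rw [← sq_abs u3]; exact pow_le_pow_left₀ (abs_nonneg _) c3 2
  have hr2 : 0 < r ^ 2 := by positivity
  have hvv : ∀ x y : ℝ, 0 ≤ x → 0 ≤ y → r ^ 2 / 2 ≤ x ^ 2 → r ^ 2 / 2 ≤ y ^ 2 →
      2 * r ^ 2 ≤ (x + y) ^ 2 := by
    intro x y hx hy hx2 hy2
    have h1 : r ^ 2 / 2 ≤ x * y := by
      have h2 : (r ^ 2 / 2) ^ 2 ≤ (x * y) ^ 2 := by
        have := mul_le_mul hx2 hy2 (by positivity) (by positivity)
        nlinarith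
      exact le_of_sq_le_sq h2 (by positivity)
    nlinarith
  have w1 : r ^ 2 / 2 ≤ v1 ^ 2 := by linarith
  have w2 : r ^ 2 / 2 ≤ v2 ^ 2 := by linarith
  have w3 : r ^ 2 / 2 ≤ v3 ^ 2 := by linarith
  have s12 := hvv v2 v1 hv2 hv1 w2 w1
  have s13 := hvv v3 v1 hv3 hv1 w3 w1
  have s23 := hvv v3 v2 hv3 hv2 w3 w2
  have hdot : ∀ a b x y : ℝ, |a| ≤ x → |b| ≤ y → 0 ≤ a * b + x * y := by
    intro a b x y h1 h2
    have h3 : |a * b| ≤ x * y := by
      rw [abs_mul]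
      exact mul_le_mul h1 h2 (abs_nonneg _) ((abs_nonneg _).trans h1)
    have := neg_abs_le (a * b)
    linarith
  have hdot2 : ∀ a b x y : ℝ, a ^ 2 + x ^ 2 = r ^ 2 → b ^ 2 + y ^ 2 = r ^ 2 →
      a * b + x * y ≤ r ^ 2 := by
    intro a b x y h1 h2
    nlinarith [sq_nonneg (a - b), sq_nonneg (x - y)]
  set br := (u3 + u2) * (u2 + u1) + (v2 + v1) * (v3 + v2) with hbr
  have hbr_lo : r ^ 2 ≤ br := by
    have a1 := hdot u3 u2 v3 v2 c3 c2
    have a2 := hdot u3 u1 v3 v1 c3 c1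
    have a3 := hdot u2 u1 v2 v1 c2 c1
    rw [hbr]
    nlinarith
  have hbr_hi : br ≤ 4 * r ^ 2 := by
    have a1 := hdot2 u3 u2 v3 v2 e3 e2
    have a2 := hdot2 u3 u1 v3 v1 e3 e1
    have a3 := hdot2 u2 u1 v2 v1 e2 e1
    rw [hbr]
    nlinarith
  have hid : cr * ((v2 + v1) * (v3 + v1) * (v3 + v2)) =
      (u2 - u1) * (u3 - u1) * (u2 - u3) * br := by
    have f1 : v1 ^ 2 = r ^ 2 - u1 ^ 2 := by linarith
    have f2 : v2 ^ 2 = r ^ 2 - u2 ^ 2 := by linarith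
    have f3 : v3 ^ 2 = r ^ 2 - u3 ^ 2 := by linarith
    have g31 : (v3 - v1) * (v3 + v1) = -((u3 - u1) * (u3 + u1)) := by
      have h : (v3 - v1) * (v3 + v1) = v3 ^ 2 - v1 ^ 2 := by ring
      rw [h, f3, f1]; ring
    have g21 : (v2 - v1) * (v2 + v1) = -((u2 - u1) * (u2 + u1)) := by
      have h : (v2 - v1) * (v2 + v1) = v2 ^ 2 - v1 ^ 2 := by ring
      rw [h, f2, f1]; ring
    have g32 : (v3 - v2) * (v3 + v2) = (u2 - u3) * (u3 + u2) := by
      have h : (v3 - v2) * (v3 + v2) = v3 ^ 2 - v2 ^ 2 := by ring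
      rw [h, f3, f2]; ring
    have h1 : cr * ((v2 + v1) * (v3 + v1)) = (u2 - u1) * (u3 - u1) *
        ((v3 - v2) * (u2 + u1) + (u2 - u3) * (v2 + v1)) := by
      have h2 : cr * ((v2 + v1) * (v3 + v1)) =
        (u2 - u1) * (v2 + v1) * ((v3 - v1) * (v3 + v1)) -
          (u3 - u1) * (v3 + v1) * ((v2 - v1) * (v2 + v1)) := by
        rw [hcr]; ring
      rw [h2, g31, g21]
      ring
    have h3 : cr * ((v2 + v1) * (v3 + v1) * (v3 + v2)) =
        (cr * ((v2 + v1) * (v3 + v1))) * (v3 + v2) := by ring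
    rw [h3, h1, hbr]
    have h4 : (u2 - u1) * (u3 - u1) * ((v3 - v2) * (u2 + u1) + (u2 - u3) * (v2 + v1)) * (v3 + v2)
        = (u2 - u1) * (u3 - u1) * (((v3 - v2) * (v3 + v2)) * (u2 + u1) +
          (u2 - u3) * (v2 + v1) * (v3 + v2)) := by ring
    rw [h4, g32]
    ring
  have hΔ0 : (u2 - u1) * (u3 - u1) * (u2 - u3) ≠ 0 :=
    mul_ne_zero (mul_ne_zero (sub_ne_zero.mpr n12.symm) (sub_ne_zero.mpr n13.symm))
      (sub_ne_zero.mpr n23)
  have hbr0 : 0 < br := lt_of_lt_of_le hr2 hbr_lo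
  have hcr0 : cr ≠ 0 := by
    intro h0
    rw [h0, zero_mul] at hid
    exact (mul_ne_zero hΔ0 hbr0.ne') hid.symm
  have hΔ : ((u2 - u1) * (u3 - u1) * (u2 - u3)) ^ 2 ≤ δ ^ 6 := by
    have hδ0 : 0 ≤ δ := (abs_nonneg _).trans d12
    have h1 : |(u2 - u1) * (u3 - u1) * (u2 - u3)| ≤ δ * δ * δ := by
      rw [abs_mul, abs_mul]
      exact mul_le_mul (mul_le_mul d12 d13 (abs_nonneg _) hδ0) d23 (abs_nonneg _) (by positivity)
    have h2 := pow_le_pow_left₀ (abs_nonneg _) h1 2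
    rw [sq_abs] at h2
    calc _ ≤ (δ * δ * δ) ^ 2 := h2
      _ = δ ^ 6 := by ring
  have hden : 8 * r ^ 6 ≤ ((v2 + v1) * (v3 + v1) * (v3 + v2)) ^ 2 := by
    have h1 : (2 * r ^ 2) * (2 * r ^ 2) * (2 * r ^ 2) ≤
        (v2 + v1) ^ 2 * (v3 + v1) ^ 2 * (v3 + v2) ^ 2 :=
      mul_le_mul (mul_le_mul s12 s13 (by positivity) (by positivity)) s23 (by positivity)
        (by positivity)
    calc 8 * r ^ 6 = (2 * r ^ 2) * (2 * r ^ 2) * (2 * r ^ 2) := by ring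
      _ ≤ (v2 + v1) ^ 2 * (v3 + v1) ^ 2 * (v3 + v2) ^ 2 := h1
      _ = ((v2 + v1) * (v3 + v1) * (v3 + v2)) ^ 2 := by ring
  have hsq : cr ^ 2 * ((v2 + v1) * (v3 + v1) * (v3 + v2)) ^ 2 =
      ((u2 - u1) * (u3 - u1) * (u2 - u3)) ^ 2 * br ^ 2 := by
    rw [← mul_pow, hid, mul_pow]
  have hup : cr ^ 2 * (8 * r ^ 6) ≤ δ ^ 6 * (16 * r ^ 4) := by
    calc cr ^ 2 * (8 * r ^ 6) ≤ cr ^ 2 * ((v2 + v1) * (v3 + v1) * (v3 + v2)) ^ 2 :=
          mul_le_mul_of_nonneg_left hden (sq_nonneg _)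
      _ = ((u2 - u1) * (u3 - u1) * (u2 - u3)) ^ 2 * br ^ 2 := hsq
      _ ≤ δ ^ 6 * (16 * r ^ 4) := by
          refine mul_le_mul hΔ ?_ (sq_nonneg _) (by positivity)
          have := pow_le_pow_left₀ hbr0.le hbr_hi 2
          calc br ^ 2 ≤ (4 * r ^ 2) ^ 2 := this
            _ = 16 * r ^ 4 := by ring
  refine ⟨by positivity, ?_⟩
  by_contra hcon
  push Not at hcon
  have h1 : 1 * (8 * r ^ 6) ≤ cr ^ 2 * (8 * r ^ 6) :=
    mul_le_mul_of_nonneg_right hcon (by positivity)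
  have h2 : 8 * r ^ 4 * r ^ 2 ≤ 8 * r ^ 4 * (2 * δ ^ 6) := by
    calc 8 * r ^ 4 * r ^ 2 = 1 * (8 * r ^ 6) := by ring
      _ ≤ cr ^ 2 * (8 * r ^ 6) := h1
      _ ≤ δ ^ 6 * (16 * r ^ 4) := hup
      _ = 8 * r ^ 4 * (2 * δ ^ 6) := by ring
  have h3 : r ^ 2 ≤ 2 * δ ^ 6 := le_of_mul_le_mul_left h2 (by positivity)
  linarith

/-- Points on a quarter of a circle with integral squared cross products. -/
lemma quarter {ι : Type*} (T : Finset ι) (U V : ι → ℝ) (r : ℝ) (hr : 0 < r) (M : ℕ) (hM : 0 < M)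
    (hrM : 128 * r ^ 4 < (M : ℝ) ^ 6)
    (hcirc : ∀ a ∈ T, U a ^ 2 + V a ^ 2 = r ^ 2) (hcone : ∀ a ∈ T, |U a| ≤ V a)
    (hinj : ∀ a ∈ T, ∀ b ∈ T, U a = U b → V a = V b → a = b)
    (hint : ∀ a ∈ T, ∀ b ∈ T, ∀ c ∈ T, ∃ z : ℤ,
      ((U b - U a) * (V c - V a) - (U c - U a) * (V b - V a)) ^ 2 = z) :
    T.card ≤ 2 * (M + 1) := by
  classical
  by_contra hcon
  push Not at hcon
  have hUr : ∀ a ∈ T, -r ≤ U a ∧ U a ≤ r := by
    intro a ha
    have h1 := hcirc a ha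
    have h2 : U a ^ 2 ≤ r ^ 2 := by nlinarith [sq_nonneg (V a)]
    exact abs_le.mp (abs_le_of_sq_le_sq h2 hr.le)
  have hM' : (0 : ℝ) < M := by exact_mod_cast hM
  have hmaps : ∀ a ∈ T, ⌊(U a + r) * (M / (2 * r))⌋₊ ∈ Finset.range (M + 1) := by
    intro a ha
    rw [Finset.mem_range, Nat.lt_succ_iff]
    have h1 : (U a + r) * (M / (2 * r)) ≤ M := by
      have := (hUr a ha).2
      calc (U a + r) * (M / (2 * r)) ≤ (2 * r) * (M / (2 * r)) :=
            mul_le_mul_of_nonneg_right (by linarith) (by positivity)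
        _ = M := by field_simp
    exact Nat.floor_le_of_le h1
  obtain ⟨y, _, hy⟩ := Finset.exists_lt_card_fiber_of_mul_lt_card_of_maps_to (n := 2) hmaps (by
    rw [Finset.card_range]; omega)
  obtain ⟨a, ha, b, hb, c, hc, hab, hac, hbc⟩ := Finset.two_lt_card.mp hy
  rw [Finset.mem_filter] at ha hb hc
  have hclose : ∀ a ∈ T, ∀ b ∈ T, ⌊(U a + r) * (M / (2 * r))⌋₊ = y →
      ⌊(U b + r) * (M / (2 * r))⌋₊ = y → |U b - U a| ≤ 2 * r / M := by
    intro a ha b hb h1 h2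
    have a0 : 0 ≤ (U a + r) * (M / (2 * r)) :=
      mul_nonneg (by linarith [(hUr a ha).1]) (by positivity)
    have b0 : 0 ≤ (U b + r) * (M / (2 * r)) :=
      mul_nonneg (by linarith [(hUr b hb).1]) (by positivity)
    have a1 := Nat.floor_le a0
    have a2 := Nat.lt_floor_add_one ((U a + r) * (M / (2 * r)))
    have b1 := Nat.floor_le b0
    have b2 := Nat.lt_floor_add_one ((U b + r) * (M / (2 * r)))
    rw [h1] at a1 a2
    rw [h2] at b1 b2
    have h3 : |(U b - U a) * (M / (2 * r))| ≤ 1 := by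
      rw [abs_le]
      constructor <;> nlinarith
    rw [abs_mul, abs_of_pos (show (0 : ℝ) < M / (2 * r) by positivity)] at h3
    calc |U b - U a| = |U b - U a| * (M / (2 * r)) * (2 * r / M) := by field_simp
      _ ≤ 1 * (2 * r / M) := mul_le_mul_of_nonneg_right h3 (by positivity)
      _ = 2 * r / M := one_mul _
  have hne : ∀ a ∈ T, ∀ b ∈ T, a ≠ b → U a ≠ U b := by
    intro a ha b hb hab h
    apply hab
    apply hinj a ha b hb h
    have h1 := hcirc a ha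
    have h2 := hcirc b hb
    rw [h] at h1
    have h3 : V a ^ 2 = V b ^ 2 := by linarith
    exact (sq_eq_sq₀ ((abs_nonneg _).trans (hcone a ha)) ((abs_nonneg _).trans (hcone b hb))).mp h3
  have hδ : 2 * (2 * r / M) ^ 6 < r ^ 2 := by
    rw [div_pow, mul_div_assoc', div_lt_iff₀ (by positivity)]
    have : r ^ 2 * (128 * r ^ 4) < r ^ 2 * (M : ℝ) ^ 6 := mul_lt_mul_of_pos_left hrM (by positivity)
    nlinarith
  have key := tri r (2 * r / M) (U a) (V a) (U b) (V b) (U c) (V c) hr hδ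
    (hcirc a ha.1) (hcirc b hb.1) (hcirc c hc.1) (hcone a ha.1) (hcone b hb.1) (hcone c hc.1)
    (hne a ha.1 b hb.1 hab) (hne a ha.1 c hc.1 hac) (hne b hb.1 c hc.1 hbc)
    (hclose a ha.1 b hb.1 ha.2 hb.2) (hclose a ha.1 c hc.1 ha.2 hc.2)
    (hclose c hc.1 b hb.1 hc.2 hb.2)
  obtain ⟨z, hz⟩ := hint a ha.1 b hb.1 c hc.1
  rw [hz] at key
  have k1 : 0 < z := by exact_mod_cast key.1
  have k2 : z < 1 := by exact_mod_cast key.2
  omega

lemma circle {ι : Type*} (T : Finset ι) (U V : ι → ℝ) (r : ℝ) (hr : 0 < r) (M : ℕ) (hM : 0 < M)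
    (hrM : 128 * r ^ 4 < (M : ℝ) ^ 6)
    (hcirc : ∀ a ∈ T, U a ^ 2 + V a ^ 2 = r ^ 2)
    (hinj : ∀ a ∈ T, ∀ b ∈ T, U a = U b → V a = V b → a = b)
    (hint : ∀ a ∈ T, ∀ b ∈ T, ∀ c ∈ T, ∃ z : ℤ,
      ((U b - U a) * (V c - V a) - (U c - U a) * (V b - V a)) ^ 2 = z) :
    T.card ≤ 8 * (M + 1) := by
  classical
  have h1 := quarter (T.filter fun a => |U a| ≤ V a) U V r hr M hM hrM
    (fun a ha => hcirc a (Finset.mem_filter.mp ha).1) (fun a ha => (Finset.mem_filter.mp ha).2)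
    (fun a ha b hb => hinj a (Finset.mem_filter.mp ha).1 b (Finset.mem_filter.mp hb).1)
    (fun a ha b hb c hc => hint a (Finset.mem_filter.mp ha).1 b (Finset.mem_filter.mp hb).1 c
      (Finset.mem_filter.mp hc).1)
  have h2 := quarter (T.filter fun a => |U a| ≤ - V a) U (fun a => - V a) r hr M hM hrM
    (fun a ha => by rw [neg_sq]; exact hcirc a (Finset.mem_filter.mp ha).1)
    (fun a ha => (Finset.mem_filter.mp ha).2)
    (fun a ha b hb hu hv => hinj a (Finset.mem_filter.mp ha).1 b (Finset.mem_filter.mp hb).1 hu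
      (neg_injective hv))
    (fun a ha b hb c hc => by
      obtain ⟨z, hz⟩ := hint a (Finset.mem_filter.mp ha).1 b (Finset.mem_filter.mp hb).1 c
        (Finset.mem_filter.mp hc).1
      exact ⟨z, by rw [← hz]; ring⟩)
  have h3 := quarter (T.filter fun a => |V a| ≤ U a) V U r hr M hM hrM
    (fun a ha => by rw [add_comm]; exact hcirc a (Finset.mem_filter.mp ha).1)
    (fun a ha => (Finset.mem_filter.mp ha).2)
    (fun a ha b hb hu hv => hinj a (Finset.mem_filter.mp ha).1 b (Finset.mem_filter.mp hb).1 hv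
      hu)
    (fun a ha b hb c hc => by
      obtain ⟨z, hz⟩ := hint a (Finset.mem_filter.mp ha).1 b (Finset.mem_filter.mp hb).1 c
        (Finset.mem_filter.mp hc).1
      exact ⟨z, by rw [← hz]; ring⟩)
  have h4 := quarter (T.filter fun a => |V a| ≤ - U a) V (fun a => - U a) r hr M hM hrM
    (fun a ha => by rw [neg_sq, add_comm]; exact hcirc a (Finset.mem_filter.mp ha).1)
    (fun a ha => (Finset.mem_filter.mp ha).2)
    (fun a ha b hb hu hv => hinj a (Finset.mem_filter.mp ha).1 b (Finset.mem_filter.mp hb).1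
      (neg_injective hv) hu)
    (fun a ha b hb c hc => by
      obtain ⟨z, hz⟩ := hint a (Finset.mem_filter.mp ha).1 b (Finset.mem_filter.mp hb).1 c
        (Finset.mem_filter.mp hc).1
      exact ⟨z, by rw [← hz]; ring⟩)
  have hcov : T ⊆ ((T.filter fun a => |U a| ≤ V a) ∪ (T.filter fun a => |U a| ≤ - V a)) ∪
      ((T.filter fun a => |V a| ≤ U a) ∪ (T.filter fun a => |V a| ≤ - U a)) := by
    intro a ha
    simp only [Finset.mem_union, Finset.mem_filter, ha, true_and]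
    rcases le_total (|U a|) (|V a|) with h | h
    · left
      rcases le_total 0 (V a) with h' | h'
      · left; rwa [abs_of_nonneg h'] at h
      · right; rwa [abs_of_nonpos h'] at h
    · right
      rcases le_total 0 (U a) with h' | h'
      · left; rwa [abs_of_nonneg h'] at h
      · right; rwa [abs_of_nonpos h'] at h
  have hle := Finset.card_le_card hcov
  have l1 := Finset.card_union_le ((T.filter fun a => |U a| ≤ V a) ∪ (T.filter fun a => |U a| ≤ - V a))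
      ((T.filter fun a => |V a| ≤ U a) ∪ (T.filter fun a => |V a| ≤ - U a))
  have l2 := Finset.card_union_le (T.filter fun a => |U a| ≤ V a) (T.filter fun a => |U a| ≤ - V a)
  have l3 := Finset.card_union_le (T.filter fun a => |V a| ≤ U a) (T.filter fun a => |V a| ≤ - U a)
  omega

end H912Tor
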