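import Mathlib
import Pool.Agent.H912R3.Tor.B

set_option autoImplicit false

namespace H912Tor

/-- The quadratic function `y ↦ 2 v·y - τ |y|²`. -/
def Qf (τ : ℤ) (v : Fin 3 → ℤ) (y : Fin 3 → ℤ) : ℤ := ∑ i, (2 * v i * y i - τ * y i ^ 2)

lemma exists_g (p : ℕ) [hp : Fact p.Prime] (s : Fin 3 → ℤ) :
    ∃ g : Fin 3 → (Fin 3 → ℤ) → ℤ,
      (∀ i, IP p (g i)) ∧ (∀ i, g i s = 0) ∧
      (∀ i (y : Fin 3 → ℤ), ((g i (fun j => s j + p * y j) : ℤ) : ZMod p) = ((y i : ℤ) : ZMod p)) := by
  have hp0 : (p : ℤ) ≠ 0 := by exact_mod_cast hp.1.ne_zero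
  have hdvd : ∀ z : ℤ, (p : ℤ) ∣ z - z ^ p := by
    intro z
    rw [← ZMod.intCast_zmod_eq_zero_iff_dvd]
    push_cast
    rw [ZMod.pow_card, sub_self]
  refine ⟨fun i x => ((x i - s i) - (x i - s i) ^ p) / p, ?_, ?_, ?_⟩
  · intro i
    have h1 : IP 1 (fun x : Fin 3 → ℤ => x i - s i) :=
      (IP.coord i).sub ((IP.const (s i)).mono (by norm_num))
    have h2 := h1.pow p
    rw [mul_one] at h2
    have h3 := (h1.mono hp.1.one_lt.le).sub h2
    refine h3.divv p hp.1.ne_zero ?_
    intro x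
    exact Int.mul_ediv_cancel' (hdvd _)
  · intro i
    simp [hp.1.ne_zero]
  · intro i y
    have h1 : ((s i + p * y i - s i) - (s i + p * y i - s i) ^ p) / (p : ℤ)
        = y i - (p : ℤ) ^ (p - 1) * y i ^ p := by
      apply Int.ediv_eq_of_eq_mul_right hp0
      have h2 : (p : ℤ) ^ p = p * (p : ℤ) ^ (p - 1) := by
        rw [← pow_succ', Nat.sub_add_cancel hp.1.one_lt.le]
      rw [add_sub_cancel_left, mul_pow, h2]
      ring
    show (((((s i + p * y i - s i) - (s i + p * y i - s i) ^ p) / (p : ℤ)) : ℤ) : ZMod p) = _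
    rw [h1]
    have h3 : p - 1 ≠ 0 := by
      have := hp.1.one_lt
      omega
    push_cast
    rw [ZMod.natCast_self, zero_pow h3]
    ring

lemma interp (p : ℕ) [hp : Fact p.Prime] (S : Finset (Fin 3 → ℤ)) (s : Fin 3 → ℤ)
    (τ : ℤ) (v : Fin 3 → ℤ) (L : ℕ) (hL : L < p) (T : Finset (Fin 3 → ℤ))
    (hT : ∀ t ∈ T, ∃ i, ((t i : ℤ) : ZMod p) ≠ 0)
    (hcov : ∀ y : Fin 3 → ℤ, y ≠ 0 → (fun i => s i + p * y i) ∈ S →
      (Qf τ v y ≠ 0 ∧ |Qf τ v y| ≤ L) ∨ y ∈ T) :
    ∃ F, IP (3 * (p - 1) + (2 * L + 1) * (2 * p) + T.card * p) F ∧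
      (∀ t ∈ S, t ≠ s → ((F t : ℤ) : ZMod p) = 0) ∧ ((F s : ℤ) : ZMod p) ≠ 0 := by
  classical
  obtain ⟨g, hg1, hg2, hg3⟩ := exists_g p s
  choose! ix hix using hT
  let J : Finset ℤ := (Finset.Icc (-(L : ℤ)) L).erase 0
  let F : (Fin 3 → ℤ) → ℤ := fun x =>
    (∏ i ∈ (Finset.univ : Finset (Fin 3)), (1 - (x i - s i) ^ (p - 1))) *
      (∏ j ∈ J, (Qf τ v (fun i => g i x) - j)) *
      (∏ t ∈ T, (g (ix t) x - t (ix t)))
  have hJc : J.card ≤ 2 * L + 1 := by
    refine (Finset.card_erase_le).trans ?_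
    simp
    omega
  refine ⟨F, ?_, ?_, ?_⟩
  · have hA : IP (3 * (p - 1)) (fun x : Fin 3 → ℤ =>
        ∏ i ∈ (Finset.univ : Finset (Fin 3)), (1 - (x i - s i) ^ (p - 1))) := by
      have := IP.prod (D := p - 1) (Finset.univ : Finset (Fin 3))
        (F := fun i x => 1 - (x i - s i) ^ (p - 1)) (by
          intro i _
          have h1 : IP 1 (fun x : Fin 3 → ℤ => x i - s i) :=
            (IP.coord i).sub ((IP.const (s i)).mono (by norm_num))
          have h2 := h1.pow (p - 1)
          rw [mul_one] at h2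
          exact ((IP.const 1).mono (by norm_num)).sub h2)
      simpa using this
    have hQ : IP (2 * p) (fun x : Fin 3 → ℤ => Qf τ v (fun i => g i x)) := by
      have h1 : ∀ i : Fin 3, IP (2 * p) (fun x => 2 * v i * g i x - τ * g i x ^ 2) := by
        intro i
        have h2 := (IP.const (2 * v i)).mul (hg1 i)
        have h3 := (IP.const τ).mul ((hg1 i).pow 2)
        rw [zero_add] at h2 h3
        exact (h2.mono (by omega)).sub h3
      have h4 := ((h1 0).add (h1 1)).add (h1 2)
      have h5 : (fun x : Fin 3 → ℤ => Qf τ v (fun i => g i x)) =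
          fun x => (2 * v 0 * g 0 x - τ * g 0 x ^ 2) + (2 * v 1 * g 1 x - τ * g 1 x ^ 2)
            + (2 * v 2 * g 2 x - τ * g 2 x ^ 2) := by
        funext x
        simp only [Qf, Fin.sum_univ_three]
      rw [h5]
      exact h4
    have hB : IP ((2 * L + 1) * (2 * p)) (fun x : Fin 3 → ℤ =>
        ∏ j ∈ J, (Qf τ v (fun i => g i x) - j)) := by
      refine (IP.prod (D := 2 * p) J (F := fun j x => Qf τ v (fun i => g i x) - j) (by
          intro j _
          exact hQ.sub ((IP.const j).mono (by omega)))).mono ?_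
      exact Nat.mul_le_mul_right _ hJc
    have hC : IP (T.card * p) (fun x : Fin 3 → ℤ => ∏ t ∈ T, (g (ix t) x - t (ix t))) :=
      IP.prod (D := p) T (F := fun t x => g (ix t) x - t (ix t)) (by
          intro t _
          exact (hg1 _).sub ((IP.const _).mono (by omega)))
    exact (hA.mul hB).mul hC
  · intro x hx hxs
    by_cases hcong : ∀ i, (p : ℤ) ∣ x i - s i
    · choose y hy using hcong
      have hxy : x = fun i => s i + p * y i := by
        funext i
        have := hy i
        linarith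
      have hy0 : y ≠ 0 := by
        intro h0
        apply hxs
        rw [hxy, h0]
        funext i
        simp
      have hgy : ∀ i, ((g i x : ℤ) : ZMod p) = ((y i : ℤ) : ZMod p) := by
        intro i
        rw [hxy]
        exact hg3 i y
      rcases hcov y hy0 (hxy ▸ hx) with ⟨hQ0, hQL⟩ | hyT
      · have hj : Qf τ v y ∈ J := by
          rw [Finset.mem_erase, Finset.mem_Icc]
          exact ⟨hQ0, abs_le.mp hQL⟩
        have hz : (((∏ j ∈ J, (Qf τ v (fun i => g i x) - j)) : ℤ) : ZMod p) = 0 := by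
          push_cast
          refine Finset.prod_eq_zero hj ?_
          have : ((Qf τ v (fun i => g i x) : ℤ) : ZMod p) = ((Qf τ v y : ℤ) : ZMod p) := by
            simp only [Qf]
            push_cast
            refine Finset.sum_congr rfl fun i _ => ?_
            rw [hgy i]
          rw [this, sub_self]
        show (((_ * _ * _ : ℤ)) : ZMod p) = 0
        rw [Int.cast_mul, Int.cast_mul, hz]
        ring
      · have hz : (((∏ t ∈ T, (g (ix t) x - t (ix t))) : ℤ) : ZMod p) = 0 := by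
          push_cast
          refine Finset.prod_eq_zero hyT ?_
          rw [hgy, sub_self]
        show (((_ * _ * _ : ℤ)) : ZMod p) = 0
        rw [Int.cast_mul, hz]
        ring
    · push Not at hcong
      obtain ⟨i, hi⟩ := hcong
      have hz : (((∏ i ∈ (Finset.univ : Finset (Fin 3)), (1 - (x i - s i) ^ (p - 1))) : ℤ) :
          ZMod p) = 0 := by
        push_cast
        refine Finset.prod_eq_zero (Finset.mem_univ i) ?_
        have h1 : (((x i : ℤ) : ZMod p) - ((s i : ℤ) : ZMod p)) ≠ 0 := by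
          rw [← Int.cast_sub]
          rwa [Ne, ZMod.intCast_zmod_eq_zero_iff_dvd]
        rw [ZMod.pow_card_sub_one_eq_one h1, sub_self]
      show (((_ * _ * _ : ℤ)) : ZMod p) = 0
      rw [Int.cast_mul, Int.cast_mul, hz]
      ring
  · have hp1 : p - 1 ≠ 0 := by
      have := hp.1.one_lt
      omega
    have hA : (∏ i ∈ (Finset.univ : Finset (Fin 3)), (1 - (s i - s i) ^ (p - 1))) = (1 : ℤ) := by
      apply Finset.prod_eq_one
      intro i _
      rw [sub_self, zero_pow hp1, sub_zero]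
    have hQ0 : Qf τ v (fun i => g i s) = 0 := by
      simp [Qf, hg2]
    show (((_ * _ * _ : ℤ)) : ZMod p) ≠ 0
    rw [hA, one_mul, Int.cast_mul]
    refine mul_ne_zero ?_ ?_
    · push_cast
      rw [Finset.prod_ne_zero_iff]
      intro j hj
      rw [hQ0, Int.cast_zero, zero_sub, neg_ne_zero, Ne, ZMod.intCast_zmod_eq_zero_iff_dvd]
      rw [Finset.mem_erase, Finset.mem_Icc] at hj
      intro hd
      have h1 : (p : ℤ) ≤ |j| := by
        have := Int.le_of_dvd (abs_pos.mpr hj.1) ((dvd_abs _ _).mpr hd)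
        exact this
      have h2 : |j| ≤ L := abs_le.mpr hj.2
      have h3 : (L : ℤ) < p := by exact_mod_cast hL
      linarith
    · push_cast
      rw [Finset.prod_ne_zero_iff]
      intro t ht
      rw [hg2, Int.cast_zero, zero_sub, neg_ne_zero]
      exact hix t ht

end H912Tor
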