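import Mathlib

set_option autoImplicit false

namespace H912Tor

lemma thue (p : ℕ) [hp : Fact p.Prime] (s : Fin 3 → ℤ) (hs : ∃ i, ((s i : ℤ) : ZMod p) ≠ 0)
    (N : ℕ) (hN1 : 0 < N) (hN : N ^ 3 < p) :
    ∃ (τ : ℤ) (w v : Fin 3 → ℤ), w ≠ 0 ∧ (∀ i, w i = τ * s i + p * v i) ∧
      (∀ i, (N : ℤ) * |w i| ≤ p) := by
  classical
  have hp0 : (0 : ℤ) < p := by exact_mod_cast hp.1.pos
  let φ : ℕ → (Fin 3 → ℕ) := fun t i => ((((t : ℤ) * s i) % p) * N / p).toNat
  have hnn : ∀ (t : ℕ) (i : Fin 3), 0 ≤ (((t : ℤ) * s i) % p) * N / p := by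
    intro t i
    exact Int.ediv_nonneg (mul_nonneg (Int.emod_nonneg _ hp0.ne') (by positivity)) hp0.le
  obtain ⟨t1, ht1, t2, ht2, hne, heq⟩ := Finset.exists_ne_map_eq_of_card_lt_of_maps_to
    (s := Finset.range p) (t := Fintype.piFinset (fun _ : Fin 3 => Finset.range N)) (f := φ) (by
      rw [Fintype.card_piFinset]
      simpa using hN) (by
      intro t _
      rw [Finset.mem_coe, Fintype.mem_piFinset]
      intro i
      rw [Finset.mem_range]
      show ((((t : ℤ) * s i) % p) * N / p).toNat < N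
      have hN0 : 0 < (N : ℤ) := by exact_mod_cast hN1
      have h1 : (((t : ℤ) * s i) % p) < p := Int.emod_lt_of_pos _ hp0
      have h2 : (((t : ℤ) * s i) % p) * N / p < N := by
        apply Int.ediv_lt_of_lt_mul hp0
        nlinarith
      have := hnn t i
      omega)
  rw [Finset.mem_range] at ht1 ht2
  refine ⟨(t1 : ℤ) - t2, fun i => ((t1 : ℤ) * s i) % p - ((t2 : ℤ) * s i) % p,
    fun i => -(((t1 : ℤ) * s i) / p) + ((t2 : ℤ) * s i) / p, ?_, ?_, ?_⟩
  · intro h0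
    obtain ⟨i, hi⟩ := hs
    have h1 := congrFun h0 i
    simp only [Pi.zero_apply] at h1
    have h2 := Int.emod_add_mul_ediv ((t1 : ℤ) * s i) p
    have h3 := Int.emod_add_mul_ediv ((t2 : ℤ) * s i) p
    have h4 : ((t1 : ℤ) - t2) * s i = p * (((t1 : ℤ) * s i) / p - ((t2 : ℤ) * s i) / p) := by
      linarith
    have h5 : ((((t1 : ℤ) - t2) * s i : ℤ) : ZMod p) = 0 := by
      rw [h4]; push_cast; rw [ZMod.natCast_self]; ring
    rw [Int.cast_mul] at h5
    have h6 := (mul_eq_zero.mp h5).resolve_right hi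
    rw [ZMod.intCast_zmod_eq_zero_iff_dvd] at h6
    have h7 : ((t1 : ℤ) - t2) ≠ 0 := by
      intro h; apply hne; omega
    have h8 := Int.le_of_dvd (abs_pos.mpr h7) ((dvd_abs _ _).mpr h6)
    have h9 : |(t1 : ℤ) - t2| < p := by
      rw [abs_lt]; constructor <;> omega
    omega
  · intro i
    have h2 := Int.emod_add_mul_ediv ((t1 : ℤ) * s i) p
    have h3 := Int.emod_add_mul_ediv ((t2 : ℤ) * s i) p
    simp only []
    linarith
  · intro i
    have h1 := congrFun heq i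
    have h2 : (((t1 : ℤ) * s i) % p) * N / p = (((t2 : ℤ) * s i) % p) * N / p := by
      have a1 := hnn t1 i
      have a2 := hnn t2 i
      have a3 : ((((t1 : ℤ) * s i) % p) * N / p).toNat = ((((t2 : ℤ) * s i) % p) * N / p).toNat := h1
      omega
    set A := (((t1 : ℤ) * s i) % p) * N
    set B := (((t2 : ℤ) * s i) % p) * N
    have a1 := Int.emod_add_mul_ediv A p
    have a2 := Int.emod_add_mul_ediv B p
    have b1 := Int.emod_nonneg A hp0.ne'
    have b2 := Int.emod_lt_of_pos A hp0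
    have b3 := Int.emod_nonneg B hp0.ne'
    have b4 := Int.emod_lt_of_pos B hp0
    rw [h2] at a1
    have h3 : |A - B| ≤ p := by
      rw [abs_le]; constructor <;> linarith
    have h4 : (N : ℤ) * |((t1 : ℤ) * s i) % p - ((t2 : ℤ) * s i) % p| = |A - B| := by
      have : A - B = (N : ℤ) * ((((t1 : ℤ) * s i) % p) - (((t2 : ℤ) * s i) % p)) := by
        simp only [A, B]; ring
      rw [this, abs_mul, abs_of_nonneg (show (0 : ℤ) ≤ N by positivity)]
    rw [h4]
    exact h3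

lemma exists_prime (m n : ℕ) (hm : 1 ≤ m) (hn : 1 ≤ n) (hnm : n ≤ m ^ 12) :
    ∃ p, p.Prime ∧ 12 * m ^ 3 < p ∧ p ≤ 192 * m ^ 3 ∧ ¬ p ∣ n := by
  have hm3 : 0 < m ^ 3 := by positivity
  obtain ⟨p1, q1, l1, u1⟩ := Nat.exists_prime_lt_and_le_two_mul (12 * m ^ 3) (by omega)
  obtain ⟨p2, q2, l2, u2⟩ := Nat.exists_prime_lt_and_le_two_mul (24 * m ^ 3) (by omega)
  obtain ⟨p3, q3, l3, u3⟩ := Nat.exists_prime_lt_and_le_two_mul (48 * m ^ 3) (by omega)
  obtain ⟨p4, q4, l4, u4⟩ := Nat.exists_prime_lt_and_le_two_mul (96 * m ^ 3) (by omega)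
  by_contra hcon
  push Not at hcon
  have d1 := hcon p1 q1 (by omega) (by omega)
  have d2 := hcon p2 q2 (by omega) (by omega)
  have d3 := hcon p3 q3 (by omega) (by omega)
  have d4 := hcon p4 q4 (by omega) (by omega)
  have c12 : Nat.Coprime p1 p2 := (Nat.coprime_primes q1 q2).mpr (by omega)
  have c13 : Nat.Coprime p1 p3 := (Nat.coprime_primes q1 q3).mpr (by omega)
  have c23 : Nat.Coprime p2 p3 := (Nat.coprime_primes q2 q3).mpr (by omega)
  have c14 : Nat.Coprime p1 p4 := (Nat.coprime_primes q1 q4).mpr (by omega)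
  have c24 : Nat.Coprime p2 p4 := (Nat.coprime_primes q2 q4).mpr (by omega)
  have c34 : Nat.Coprime p3 p4 := (Nat.coprime_primes q3 q4).mpr (by omega)
  have e12 := Nat.Coprime.mul_dvd_of_dvd_of_dvd c12 d1 d2
  have e123 := Nat.Coprime.mul_dvd_of_dvd_of_dvd (Nat.Coprime.mul_left c13 c23) e12 d3
  have e1234 := Nat.Coprime.mul_dvd_of_dvd_of_dvd
    (Nat.Coprime.mul_left (Nat.Coprime.mul_left c14 c24) c34) e123 d4
  have hle := Nat.le_of_dvd hn e1234
  have hbig : m ^ 12 < p1 * p2 * p3 * p4 := by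
    have a1 : m ^ 3 < p1 := by omega
    have a2 : m ^ 3 < p2 := by omega
    have a3 : m ^ 3 < p3 := by omega
    have a4 : m ^ 3 < p4 := by omega
    calc m ^ 12 = m ^ 3 * m ^ 3 * m ^ 3 * m ^ 3 := by ring
      _ < p1 * p2 * p3 * p4 := by gcongr
  omega

end H912Tor
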