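import Mathlib
import Pool.Agent.H912R3.Tor.Cc

set_option autoImplicit false

namespace H912Tor

open scoped RealInnerProductSpace

lemma plane (w : Fin 3 → ℝ) (hw : w ≠ 0) : ∃ e f : Fin 3 → ℝ,
    (∀ y z : Fin 3 → ℝ, ∑ i, w i * z i = 0 →
      ∑ i, y i * z i = (∑ i, e i * y i) * (∑ i, e i * z i) +
        (∑ i, f i * y i) * (∑ i, f i * z i)) ∧
    (∀ y : Fin 3 → ℝ, (∑ i, e i * y i) ^ 2 + (∑ i, f i * y i) ^ 2 ≤ ∑ i, y i ^ 2) := by
  let W : EuclideanSpace ℝ (Fin 3) := WithLp.toLp 2 w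
  have hW : W ≠ 0 := by
    intro h
    apply hw
    funext i
    have := congrArg (fun v : EuclideanSpace ℝ (Fin 3) => v i) h
    simpa [W] using this
  have : Fact (Module.finrank ℝ (EuclideanSpace ℝ (Fin 3)) = 2 + 1) := ⟨by simp⟩
  let K := (Submodule.span ℝ {W})ᗮ
  have hK : Module.finrank ℝ K = 2 := Submodule.finrank_orthogonal_span_singleton hW
  let b : OrthonormalBasis (Fin 2) ℝ K := (stdOrthonormalBasis ℝ K).reindex (finCongr hK)
  have hin : ∀ x y : EuclideanSpace ℝ (Fin 3), ⟪x, y⟫ = ∑ i, x i * y i := by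
    intro x y
    rw [PiLp.inner_apply]
    refine Finset.sum_congr rfl fun i _ => ?_
    simp [mul_comm]
  have hortho : Orthonormal ℝ (fun i : Fin 2 => ((b i : K) : EuclideanSpace ℝ (Fin 3))) :=
    b.orthonormal.comp_linearIsometry K.subtypeₗᵢ
  refine ⟨fun i => ((b 0 : K) : EuclideanSpace ℝ (Fin 3)) i,
    fun i => ((b 1 : K) : EuclideanSpace ℝ (Fin 3)) i, ?_, ?_⟩
  · intro y z hz
    let y' : EuclideanSpace ℝ (Fin 3) := WithLp.toLp 2 y
    let z' : EuclideanSpace ℝ (Fin 3) := WithLp.toLp 2 z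
    have hzK : z' ∈ K := by
      rw [Submodule.mem_orthogonal_singleton_iff_inner_right, hin]
      exact hz
    have h1 := b.sum_repr' ⟨z', hzK⟩
    have h2 : z' = ⟪((b 0 : K) : EuclideanSpace ℝ (Fin 3)), z'⟫ • ((b 0 : K) : EuclideanSpace ℝ (Fin 3))
        + ⟪((b 1 : K) : EuclideanSpace ℝ (Fin 3)), z'⟫ • ((b 1 : K) : EuclideanSpace ℝ (Fin 3)) := by
      have h3 := congrArg (fun v : K => (v : EuclideanSpace ℝ (Fin 3))) h1
      simp only [Fin.sum_univ_two] at h3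
      exact h3.symm
    have h4 : ⟪y', z'⟫ = ⟪((b 0 : K) : EuclideanSpace ℝ (Fin 3)), z'⟫ *
        ⟪y', ((b 0 : K) : EuclideanSpace ℝ (Fin 3))⟫
        + ⟪((b 1 : K) : EuclideanSpace ℝ (Fin 3)), z'⟫ *
        ⟪y', ((b 1 : K) : EuclideanSpace ℝ (Fin 3))⟫ := by
      conv_lhs => rw [h2]
      rw [inner_add_right, inner_smul_right, inner_smul_right]
    have i0 : ⟪y', ((b 0 : K) : EuclideanSpace ℝ (Fin 3))⟫ =
        ∑ i, ((b 0 : K) : EuclideanSpace ℝ (Fin 3)) i * y i := by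
      rw [real_inner_comm, hin]
    have i1 : ⟪y', ((b 1 : K) : EuclideanSpace ℝ (Fin 3))⟫ =
        ∑ i, ((b 1 : K) : EuclideanSpace ℝ (Fin 3)) i * y i := by
      rw [real_inner_comm, hin]
    have j0 : ⟪((b 0 : K) : EuclideanSpace ℝ (Fin 3)), z'⟫ =
        ∑ i, ((b 0 : K) : EuclideanSpace ℝ (Fin 3)) i * z i := hin _ _
    have j1 : ⟪((b 1 : K) : EuclideanSpace ℝ (Fin 3)), z'⟫ =
        ∑ i, ((b 1 : K) : EuclideanSpace ℝ (Fin 3)) i * z i := hin _ _
    have k0 : ⟪y', z'⟫ = ∑ i, y i * z i := hin _ _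
    rw [i0, i1, j0, j1, k0] at h4
    rw [h4]
    ring
  · intro y
    let y' : EuclideanSpace ℝ (Fin 3) := WithLp.toLp 2 y
    have h1 := hortho.sum_inner_products_le y' (s := Finset.univ)
    rw [Fin.sum_univ_two, Real.norm_eq_abs, Real.norm_eq_abs, sq_abs, sq_abs, hin, hin,
      EuclideanSpace.norm_sq_eq] at h1
    refine h1.trans (le_of_eq ?_)
    refine Finset.sum_congr rfl fun i _ => ?_
    rw [Real.norm_eq_abs, sq_abs]

lemma ycount (w : Fin 3 → ℤ) (hw : w ≠ 0) (s : Fin 3 → ℤ) (n : ℕ)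
    (hs : ∑ i, s i ^ 2 = (n : ℤ)) (p : ℕ) (hp : 0 < p) (Y : Finset (Fin 3 → ℤ))
    (hY1 : ∀ y ∈ Y, ∑ i, w i * y i = 0)
    (hY2 : ∀ y ∈ Y, 2 * ∑ i, s i * y i + p * ∑ i, y i ^ 2 = 0)
    (M : ℕ) (hM : 0 < M) (hnM : 128 * ((n : ℝ) / p ^ 2) ^ 2 < (M : ℝ) ^ 6) :
    Y.card ≤ 8 * (M + 1) := by
  classical
  obtain ⟨e, f, h1, h2⟩ := plane (fun i => (w i : ℝ)) (by
    intro h
    apply hw
    funext i
    have := congrFun h i
    simpa using this)
  have hp' : (0 : ℝ) < p := by exact_mod_cast hp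
  set c1 : ℝ := -(∑ i, e i * (s i : ℝ)) / p with hc1
  set c2 : ℝ := -(∑ i, f i * (s i : ℝ)) / p with hc2
  have hsR : ∑ i, (s i : ℝ) ^ 2 = n := by exact_mod_cast hs
  have hr2 : c1 ^ 2 + c2 ^ 2 ≤ (n : ℝ) / p ^ 2 := by
    have := h2 (fun i => (s i : ℝ))
    rw [hsR] at this
    rw [hc1, hc2, div_pow, div_pow, ← add_div, neg_sq, neg_sq]
    exact div_le_div_of_nonneg_right this (by positivity)
  have hwY : ∀ y ∈ Y, ∑ i, (w i : ℝ) * (y i : ℝ) = 0 := by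
    intro y hy
    exact_mod_cast hY1 y hy
  have hyy : ∀ y ∈ Y, ∑ i, (y i : ℝ) ^ 2 =
      2 * (c1 * (∑ i, e i * (y i : ℝ)) + c2 * (∑ i, f i * (y i : ℝ))) := by
    intro y hy
    have a1 := h1 (fun i => (s i : ℝ)) (fun i => (y i : ℝ)) (hwY y hy)
    have a2 : 2 * ∑ i, (s i : ℝ) * (y i : ℝ) + p * ∑ i, (y i : ℝ) ^ 2 = 0 := by
      exact_mod_cast hY2 y hy
    rw [a1] at a2
    rw [hc1, hc2]
    field_simp
    linarith
  have hzz : ∀ z : Fin 3 → ℝ, ∑ i, (w i : ℝ) * z i = 0 →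
      ∑ i, z i ^ 2 = (∑ i, e i * z i) ^ 2 + (∑ i, f i * z i) ^ 2 := by
    intro z hz
    have := h1 z z hz
    rw [sq, sq, ← this]
    exact Finset.sum_congr rfl fun i _ => sq _
  by_cases hr0 : c1 ^ 2 + c2 ^ 2 = 0
  · have hc10 : c1 = 0 := by nlinarith [sq_nonneg c1, sq_nonneg c2]
    have hc20 : c2 = 0 := by nlinarith [sq_nonneg c1, sq_nonneg c2]
    have hsub : Y ⊆ {0} := by
      intro y hy
      rw [Finset.mem_singleton]
      have a1 := hyy y hy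
      rw [hc10, hc20] at a1
      have a2 : ∑ i, (y i : ℝ) ^ 2 = 0 := by rw [a1]; ring
      rw [Finset.sum_eq_zero_iff_of_nonneg (fun i _ => sq_nonneg _)] at a2
      funext i
      have := a2 i (Finset.mem_univ i)
      have h3 : (y i : ℝ) = 0 := by simpa using this
      exact_mod_cast h3
    have := Finset.card_le_card hsub
    rw [Finset.card_singleton] at this
    omega
  · have hrpos : 0 < c1 ^ 2 + c2 ^ 2 := lt_of_le_of_ne (by positivity) (Ne.symm hr0)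
    set r := Real.sqrt (c1 ^ 2 + c2 ^ 2) with hr
    have hrsq : r ^ 2 = c1 ^ 2 + c2 ^ 2 := Real.sq_sqrt hrpos.le
    have hrp : 0 < r := Real.sqrt_pos.mpr hrpos
    have hlin : ∀ (g : Fin 3 → ℝ) (a b : Fin 3 → ℤ),
        ∑ i, g i * ((b i : ℝ) - (a i : ℝ)) = ∑ i, g i * (b i : ℝ) - ∑ i, g i * (a i : ℝ) := by
      intro g a b
      rw [← Finset.sum_sub_distrib]
      exact Finset.sum_congr rfl fun i _ => by ring
    refine circle Y (fun y => ∑ i, e i * (y i : ℝ) - c1) (fun y => ∑ i, f i * (y i : ℝ) - c2)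
      r hrp M hM ?_ ?_ ?_ ?_
    · refine lt_of_le_of_lt ?_ hnM
      have h4 : r ^ 4 = (c1 ^ 2 + c2 ^ 2) ^ 2 := by rw [← hrsq]; ring
      rw [h4]
      have := pow_le_pow_left₀ hrpos.le hr2 2
      linarith
    · intro y hy
      have a1 := hyy y hy
      have a2 := hzz _ (hwY y hy)
      show (∑ i, e i * (y i : ℝ) - c1) ^ 2 + (∑ i, f i * (y i : ℝ) - c2) ^ 2 = r ^ 2
      rw [hrsq]
      nlinarith
    · intro a ha b hb hu hv
      have a1 : ∑ i, e i * (a i : ℝ) = ∑ i, e i * (b i : ℝ) := by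
        have : ∑ i, e i * (a i : ℝ) - c1 = ∑ i, e i * (b i : ℝ) - c1 := hu
        linarith
      have a2 : ∑ i, f i * (a i : ℝ) = ∑ i, f i * (b i : ℝ) := by
        have : ∑ i, f i * (a i : ℝ) - c2 = ∑ i, f i * (b i : ℝ) - c2 := hv
        linarith
      have a3 := hzz (fun i => (b i : ℝ) - (a i : ℝ)) (by
        rw [hlin (fun i => (w i : ℝ)) a b, hwY a ha, hwY b hb, sub_zero])
      rw [hlin e a b, hlin f a b, a1, a2] at a3
      have a4 : ∑ i, ((b i : ℝ) - (a i : ℝ)) ^ 2 = 0 := by rw [a3]; ring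
      rw [Finset.sum_eq_zero_iff_of_nonneg (fun i _ => sq_nonneg _)] at a4
      funext i
      have := a4 i (Finset.mem_univ i)
      have h3 : (b i : ℝ) - (a i : ℝ) = 0 := by simpa using this
      have h4 : (a i : ℝ) = (b i : ℝ) := by linarith
      exact_mod_cast h4
    · intro a ha b hb c hc
      refine ⟨(∑ i, (b i - a i) ^ 2) * (∑ i, (c i - a i) ^ 2) -
        (∑ i, (b i - a i) * (c i - a i)) ^ 2, ?_⟩
      have wb : ∑ i, (w i : ℝ) * ((b i : ℝ) - (a i : ℝ)) = 0 := by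
        rw [hlin (fun i => (w i : ℝ)) a b, hwY a ha, hwY b hb, sub_zero]
      have wc : ∑ i, (w i : ℝ) * ((c i : ℝ) - (a i : ℝ)) = 0 := by
        rw [hlin (fun i => (w i : ℝ)) a c, hwY a ha, hwY c hc, sub_zero]
      have b1 := hzz (fun i => (b i : ℝ) - (a i : ℝ)) wb
      have b2 := hzz (fun i => (c i : ℝ) - (a i : ℝ)) wc
      have b3 := h1 (fun i => (b i : ℝ) - (a i : ℝ)) (fun i => (c i : ℝ) - (a i : ℝ)) wc
      push_cast
      rw [b1, b2, b3, hlin e a b, hlin f a b, hlin e a c, hlin f a c]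
      ring

end H912Tor
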