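import Mathlib
import Pool.Agent.H912R3.Tor.A
import Pool.Agent.H912R3.Tor.F
import Pool.Agent.H912R3.Tor.N
import Pool.Agent.H912R3.Tor.P

set_option autoImplicit false

namespace H912Tor

lemma sum_sq_expand (s y : Fin 3 → ℤ) (p : ℤ) :
    ∑ i, (s i + p * y i) ^ 2 = ∑ i, s i ^ 2 + p * (2 * ∑ i, s i * y i + p * ∑ i, y i ^ 2) := by
  simp only [Fin.sum_univ_three]
  ring

lemma Qf_eq (τ : ℤ) (v w s y : Fin 3 → ℤ) (p : ℤ) (hw : ∀ i, w i = τ * s i + p * v i) :
    p * Qf τ v y = 2 * ∑ i, w i * y i - τ * (2 * ∑ i, s i * y i + p * ∑ i, y i ^ 2) := by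
  simp only [Qf, Fin.sum_univ_three, hw]
  ring

lemma size_bound (s y : Fin 3 → ℤ) (n : ℤ) (hs : ∑ i, s i ^ 2 = n) (p : ℤ)
    (h : 2 * ∑ i, s i * y i + p * ∑ i, y i ^ 2 = 0) (hn : 0 ≤ n) :
    p ^ 2 * ∑ i, y i ^ 2 ≤ 4 * n := by
  set Y := ∑ i, y i ^ 2 with hY
  have hY0 : 0 ≤ Y := Finset.sum_nonneg fun i _ => sq_nonneg _
  have hcs := Finset.sum_mul_sq_le_sq_mul_sq Finset.univ s y
  rw [hs, ← hY] at hcs
  have h1 : (p * Y) ^ 2 = 4 * (∑ i, s i * y i) ^ 2 := by
    have : p * Y = -(2 * ∑ i, s i * y i) := by linarith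
    rw [this]; ring
  rcases hY0.eq_or_lt with h0 | h0
  · rw [← h0]; linarith
  · have h2 : Y * (p ^ 2 * Y) ≤ Y * (4 * n) := by
      calc Y * (p ^ 2 * Y) = (p * Y) ^ 2 := by ring
        _ = 4 * (∑ i, s i * y i) ^ 2 := h1
        _ ≤ 4 * (n * Y) := by linarith
        _ = Y * (4 * n) := by ring
    exact le_of_mul_le_mul_left h2 h0

theorem main_bound (n : ℕ) (hn : 1 ≤ n) (S : Finset (Fin 3 → ℤ))
    (hS : ∀ x, x ∈ S ↔ ∑ i, x i ^ 2 = (n : ℤ)) (a : (Fin 3 → ℤ) → ℂ) (p0 : Fin 3 → ℝ) (k : ℕ)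
    (hU : U S a ≠ 0) (hV : Van k (U S a) p0) (m : ℕ) (hm : 1 ≤ m) (hnm : n ≤ m ^ 12) :
    k ≤ 4800 * m ^ 5 := by
  classical
  by_contra hk
  push Not at hk
  obtain ⟨p, hpp, hp1, hp2, hpn⟩ := exists_prime m n hm hn hnm
  have : Fact p.Prime := ⟨hpp⟩
  have hm3 : m ^ 2 ≤ m ^ 3 := Nat.pow_le_pow_right hm (by norm_num)
  have hmp : m ^ 3 < p := by omega
  have hp0 : 0 < p := hpp.pos
  have hpZ : (0 : ℤ) < p := by exact_mod_cast hp0
  have hpbig : 144 * (m : ℤ) ^ 6 < (p : ℤ) ^ 2 := by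
    have h1 : (12 * m ^ 3) * (12 * m ^ 3) < p * p := Nat.mul_self_lt_mul_self hp1
    have h2 : ((12 * m ^ 3) * (12 * m ^ 3) : ℤ) < p * p := by exact_mod_cast h1
    nlinarith
  have hnmZ : (n : ℤ) ≤ (m : ℤ) ^ 12 := by exact_mod_cast hnm
  have hmZ : (1 : ℤ) ≤ m := by exact_mod_cast hm
  -- every coefficient vanishes
  have hzero : ∀ x ∈ S, a x * Complex.exp (ell x p0) = 0 := by
    apply kill (D := 4800 * m ^ 5) p S (fun ξ => a ξ * Complex.exp (ell ξ p0))
    · intro F hF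
      exact poly_kill hV F _ hk hF
    · intro s hs
      have hsn := (hS s).mp hs
      have hsp : ∃ i, ((s i : ℤ) : ZMod p) ≠ 0 := by
        by_contra hcon
        push Not at hcon
        apply hpn
        have h1 : (((∑ i, s i ^ 2 : ℤ)) : ZMod p) = 0 := by
          push_cast
          refine Finset.sum_eq_zero fun i _ => ?_
          rw [hcon i]; ring
        rw [hsn] at h1
        have h2 : ((n : ℕ) : ZMod p) = 0 := by exact_mod_cast h1
        exact (ZMod.natCast_eq_zero_iff _ _).mp h2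
      obtain ⟨τ, w, v, hw0, hwv, hwN⟩ := thue p s hsp m hm hmp
      -- the points on the central plane
      let T' : Finset (Fin 3 → ℤ) := (S.image (fun x => fun i => (x i - s i) / (p : ℤ))).filter
        (fun y => ∑ i, w i * y i = 0 ∧ 2 * ∑ i, s i * y i + p * ∑ i, y i ^ 2 = 0)
      let T : Finset (Fin 3 → ℤ) := T'.erase 0
      have hTcard : T.card ≤ 8 * (m ^ 2 + 1) := by
        refine Finset.card_erase_le.trans ?_
        refine ycount w hw0 s n hsn p hp0 T' (fun y hy => (Finset.mem_filter.mp hy).2.1)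
          (fun y hy => (Finset.mem_filter.mp hy).2.2) (m ^ 2) (by positivity) ?_
        have hR : (144 : ℝ) * (m : ℝ) ^ 6 < (p : ℝ) ^ 2 := by exact_mod_cast hpbig
        have hnR : (n : ℝ) ≤ (m : ℝ) ^ 12 := by exact_mod_cast hnm
        have hmR : (0 : ℝ) < m := by exact_mod_cast hm
        have hpR : (0 : ℝ) < p := by exact_mod_cast hp0
        have h1 : (n : ℝ) / p ^ 2 ≤ (m : ℝ) ^ 6 / 144 := by
          rw [div_le_div_iff₀ (by positivity) (by norm_num)]
          have : (m : ℝ) ^ 6 * (144 * (m : ℝ) ^ 6) ≤ (m : ℝ) ^ 6 * (p : ℝ) ^ 2 :=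
            mul_le_mul_of_nonneg_left hR.le (by positivity)
          nlinarith
        have h2 := pow_le_pow_left₀ (by positivity) h1 2
        have h3 : (0 : ℝ) < (m : ℝ) ^ 12 := by positivity
        push_cast
        calc 128 * ((n : ℝ) / p ^ 2) ^ 2 ≤ 128 * ((m : ℝ) ^ 6 / 144) ^ 2 := by linarith
          _ = (128 / 144 ^ 2) * (m : ℝ) ^ 12 := by ring
          _ < 1 * (m : ℝ) ^ 12 := mul_lt_mul_of_pos_right (by norm_num) h3
          _ = ((m : ℝ) ^ 2) ^ 6 := by ring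
      have hysmall : ∀ y : Fin 3 → ℤ, 2 * ∑ i, s i * y i + p * ∑ i, y i ^ 2 = 0 →
          (p : ℤ) ^ 2 * ∑ i, y i ^ 2 ≤ 4 * n := by
        intro y hy
        exact size_bound s y n hsn p hy (by positivity)
      have hTp : ∀ t ∈ T, ∃ i, ((t i : ℤ) : ZMod p) ≠ 0 := by
        intro t ht
        have ht0 : t ≠ 0 := (Finset.mem_erase.mp ht).1
        have ht2 := (Finset.mem_filter.mp (Finset.mem_erase.mp ht).2).2.2
        have ht3 := hysmall t ht2
        obtain ⟨i, hi⟩ := Function.ne_iff.mp ht0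
        refine ⟨i, ?_⟩
        intro h0
        rw [ZMod.intCast_zmod_eq_zero_iff_dvd] at h0
        have h1 : (p : ℤ) ≤ |t i| :=
          Int.le_of_dvd (abs_pos.mpr hi) ((dvd_abs _ _).mpr h0)
        have h2 : (p : ℤ) ^ 2 ≤ (t i) ^ 2 := by
          rw [← sq_abs (t i)]
          exact pow_le_pow_left₀ hpZ.le h1 2
        have h3 : (t i) ^ 2 ≤ ∑ j, t j ^ 2 :=
          Finset.single_le_sum (f := fun j => t j ^ 2) (fun j _ => sq_nonneg _)
            (Finset.mem_univ i)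
        have h4 : (p : ℤ) ^ 2 * (p : ℤ) ^ 2 ≤ (p : ℤ) ^ 2 * ∑ j, t j ^ 2 :=
          mul_le_mul_of_nonneg_left (h2.trans h3) (by positivity)
        have h5 : (144 * (m : ℤ) ^ 6) * (144 * (m : ℤ) ^ 6) < (p : ℤ) ^ 2 * (p : ℤ) ^ 2 :=
          mul_lt_mul'' hpbig hpbig (by positivity) (by positivity)
        have h6 : (0 : ℤ) < (m : ℤ) ^ 12 := by positivity
        nlinarith
      have hcov : ∀ y : Fin 3 → ℤ, y ≠ 0 → (fun i => s i + p * y i) ∈ S →
          (Qf τ v y ≠ 0 ∧ |Qf τ v y| ≤ ((m ^ 2 : ℕ) : ℤ)) ∨ y ∈ T := by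
        intro y hy0 hyS
        have h1 := (hS _).mp hyS
        rw [sum_sq_expand, hsn] at h1
        have h2 : (p : ℤ) * (2 * ∑ i, s i * y i + p * ∑ i, y i ^ 2) = 0 := by linarith
        have h3 := (mul_eq_zero.mp h2).resolve_left hpZ.ne'
        have h4 := Qf_eq τ v w s y p hwv
        rw [h3, mul_zero, sub_zero] at h4
        have h5 := hysmall y h3
        by_cases hQ : Qf τ v y = 0
        · right
          rw [hQ, mul_zero] at h4
          refine Finset.mem_erase.mpr ⟨hy0, Finset.mem_filter.mpr ⟨?_, by linarith, h3⟩⟩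
          refine Finset.mem_image.mpr ⟨_, hyS, ?_⟩
          funext i
          show (s i + p * y i - s i) / (p : ℤ) = y i
          rw [add_sub_cancel_left, Int.mul_ediv_cancel_left _ hpZ.ne']
        · left
          refine ⟨hQ, ?_⟩
          have hcs := Finset.sum_mul_sq_le_sq_mul_sq Finset.univ w y
          have hwsq : (m : ℤ) ^ 2 * ∑ i, w i ^ 2 ≤ 3 * (p : ℤ) ^ 2 := by
            have h6 : ∀ i, ((m : ℤ) ^ 2 * w i ^ 2) ≤ (p : ℤ) ^ 2 := by
              intro i
              have := pow_le_pow_left₀ (by positivity) (hwN i) 2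
              rw [mul_pow, sq_abs] at this
              exact this
            rw [Finset.mul_sum, Fin.sum_univ_three]
            linarith [h6 0, h6 1, h6 2]
          set Q := Qf τ v y
          set Y := ∑ i, y i ^ 2 with hYd
          set W := ∑ i, w i ^ 2 with hWd
          set X := ∑ i, w i * y i with hXd
          have hY0 : 0 ≤ Y := Finset.sum_nonneg fun i _ => sq_nonneg _
          have hW0 : 0 ≤ W := Finset.sum_nonneg fun i _ => sq_nonneg _
          -- (p Q)^2 = 4 X^2 ≤ 4 W Y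
          have h7 : (p : ℤ) ^ 2 * Q ^ 2 ≤ 4 * (W * Y) := by
            have : (p : ℤ) ^ 2 * Q ^ 2 = 4 * X ^ 2 := by
              rw [← mul_pow, h4]; ring
            rw [this]; linarith
          have h8 : (m : ℤ) ^ 2 * (p : ℤ) ^ 2 * (p : ℤ) ^ 2 * Q ^ 2 ≤
              48 * (p : ℤ) ^ 2 * (m : ℤ) ^ 12 := by
            calc (m : ℤ) ^ 2 * (p : ℤ) ^ 2 * (p : ℤ) ^ 2 * Q ^ 2
                = (m : ℤ) ^ 2 * (p : ℤ) ^ 2 * ((p : ℤ) ^ 2 * Q ^ 2) := by ring
              _ ≤ (m : ℤ) ^ 2 * (p : ℤ) ^ 2 * (4 * (W * Y)) :=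
                  mul_le_mul_of_nonneg_left h7 (by positivity)
              _ = 4 * (((m : ℤ) ^ 2 * W) * ((p : ℤ) ^ 2 * Y)) := by ring
              _ ≤ 4 * ((3 * (p : ℤ) ^ 2) * (4 * n)) := by
                  refine mul_le_mul_of_nonneg_left ?_ (by norm_num)
                  exact mul_le_mul hwsq h5 (by positivity) (by positivity)
              _ ≤ 4 * ((3 * (p : ℤ) ^ 2) * (4 * (m : ℤ) ^ 12)) := by
                  refine mul_le_mul_of_nonneg_left ?_ (by norm_num)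
                  refine mul_le_mul_of_nonneg_left ?_ (by positivity)
                  linarith
              _ = 48 * (p : ℤ) ^ 2 * (m : ℤ) ^ 12 := by ring
          have h9 : Q ^ 2 ≤ ((m : ℤ) ^ 2) ^ 2 := by
            by_contra hcon
            push Not at hcon
            have hA : (0 : ℤ) < (m : ℤ) ^ 2 * (p : ℤ) ^ 2 := by positivity
            have g1 : (m : ℤ) ^ 2 * (p : ℤ) ^ 2 * ((144 * (m : ℤ) ^ 6) * ((m : ℤ) ^ 2) ^ 2) ≤
                (m : ℤ) ^ 2 * (p : ℤ) ^ 2 * ((p : ℤ) ^ 2 * Q ^ 2) := by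
              refine mul_le_mul_of_nonneg_left ?_ hA.le
              exact mul_le_mul hpbig.le hcon.le (by positivity) (by positivity)
            have g2 : (0 : ℤ) < (p : ℤ) ^ 2 * (m : ℤ) ^ 12 := by positivity
            nlinarith
          have h10 := abs_le_of_sq_le_sq h9 (by positivity)
          push_cast
          exact h10
      obtain ⟨F, hF1, hF2, hF3⟩ := interp p S s τ v (m ^ 2) (by omega) T hTp hcov
      refine ⟨F, hF1.mono ?_, hF2, hF3⟩
      have hm1 : 1 ≤ m ^ 2 := Nat.one_le_pow _ _ hm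
      calc 3 * (p - 1) + (2 * m ^ 2 + 1) * (2 * p) + T.card * p
          ≤ 3 * p + (2 * m ^ 2 + 1) * (2 * p) + (8 * (m ^ 2 + 1)) * p := by
            gcongr
            omega
        _ = (12 * m ^ 2 + 13) * p := by ring
        _ ≤ (25 * m ^ 2) * (192 * m ^ 3) := by
            refine Nat.mul_le_mul ?_ hp2
            omega
        _ = 4800 * m ^ 5 := by ring
  apply hU
  rw [U_eq]
  funext x
  simp only [Pi.zero_apply]
  refine Finset.sum_eq_zero fun ξ hξ => ?_
  have h1 := hzero ξ hξ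
  have h2 : a ξ = 0 := (mul_eq_zero.mp h1).resolve_right (Complex.exp_ne_zero _)
  rw [h2, zero_mul]

end H912Tor
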